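import Pool.Agent.N938.Mo.Blocks

/-!
# All solutions of 1/w + 1/x + 1/y + 1/z + 1/(wxyz) = 0

* `IsSolution w x y z`: nonzero integers with `1/w + 1/x + 1/y + 1/z + 1/(wxyz) = 0` in the rationals.
* `block k`: the finite set of the quadruples
  `(k, x, (D - k x) / (k + x), (E - k x) / (k + x))`, where `x` is coprime to `k`, `|k| ≤ |x| ≤ 3 |k|`,
  `k + x ≠ 0`, `D E = (k x)² - (k + x)`, `D ≡ k x` modulo `k + x` and `D, E ≠ k x`.
* `Param`, `toSol`: the same correspondence without the bound for `x`.
* `Diff a b`: the pairs `(w - x, y - z)` for the integer quadruples (entries `0` allowed) with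
  `w + x = a`, `y + z = b` which satisfy the polynomial equation `Poly`. A quadruple is recovered from
  its pair of differences and `a, b`. `Small a b T U` is the subset given by
  `2 (T - 1) (w - x)² ≤ |a| U² |a b (a + b) + 4|`, `pell a b T U` the linear automorphism
  `(u, v) ↦ (T u + a U v, T v - b U u)`.
-/

namespace Pool.Agent.Results.MP_d45172_nt.CompleteDescription

open Pool.Agent.N938.Mo

theorem result :
    -- the complete set of the solutions
    (∀ w x y z : ℤ, IsSolution w x y z ↔
      (∃ t : ℤ, t ≠ 0 ∧ t ≠ 1 ∧ List.Perm [w, x, y, z] [1, -1, t, 1 - t]) ∨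
      ∃ k : ℤ, k ≠ 0 ∧ ∃ q ∈ block k, List.Perm [w, x, y, z] [q.1, q.2.1, q.2.2.1, q.2.2.2]) ∧
    -- the solutions with `w + x ≠ 0` correspond to the divisors
    Set.BijOn toSol Param {q ∈ Sols | q.1 + q.2.1 ≠ 0} ∧
    -- the polynomial equation has only trivial solutions besides
    (∀ w x y z : ℤ, Poly w x y z ↔ IsSolution w x y z ∨ Degenerate w x y z) ∧
    -- given sums of opposite signs, minus the product not a square: finitely many Pell orbits
    (∀ a b : ℤ, a * b < 0 → ¬ IsSquare (-(a * b)) →
      (∃ T U : ℤ, 1 < T ∧ T ^ 2 + a * b * U ^ 2 = 1) ∧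
      ∀ T U : ℤ, 1 < T → ∀ h : T ^ 2 + a * b * U ^ 2 = 1,
        (Small a b T U).Finite ∧
        Diff a b = ⋃ k : ℤ, (fun p => (pell a b T U h ^ k) p) '' Small a b T U ∧
        ((Diff a b).Nonempty → (Diff a b).Infinite)) ∧
    -- the other nonzero sums: finitely many solutions
    (∀ a b : ℤ, a ≠ 0 → b ≠ 0 → (0 < a * b ∨ IsSquare (-(a * b))) → (Diff a b).Finite) := by
  refine ⟨description, bij, poly_iff, ?_, ?_⟩
  · intro a b hab hs
    refine ⟨exists_pell hab hs, ?_⟩
    intro T U hT h
    have ha : a ≠ 0 := by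
      rintro rfl
      simp at hab
    exact ⟨small_finite ha hT, diff_eq h hT, infinite_of h hT⟩
  · rintro a b ha hb (h | ⟨c, hc⟩)
    · exact finite_pos h
    · refine finite_square (c := c) ?_ hc
      rintro rfl
      have : a * b = 0 := by linarith
      rcases mul_eq_zero.mp this with h | h
      · exact ha h
      · exact hb h

end Pool.Agent.Results.MP_d45172_nt.CompleteDescription
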